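import Pool.Agent.H97.QC.Main

/-!
# The even projector as a quotient of two algebraic classes

`M` and `N` are motives, `N` without odd cohomology. The even projector of `H(M)` lies in the
`K`-algebra generated by the values of all algebraic maps `N^s ⊗ M → M` at a family `T` of (not
necessarily algebraic) cohomology classes of the `N^s` if and only if its product with an algebraic
map `f : N^s → 1` with `f(w) ≠ 0` for some `w` in `T` is algebraic. It is then itself algebraic if
`f` is not numerically trivial.
-/

set_option autoImplicit false

namespace Pool.Agent.Results.MP_fd35e1_ag.FractionalProjector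

open Pool.Agent.H97.QC

theorem result (K : Type) [Field K] [CharZero K] (m n : ℕ) (J : Type) [Fintype J]
    (W : Maps K m n J) (hW : W.Closed) (T : Tensors K J) :
    List.TFAE
      [evenProj K m n ∈ Algebra.adjoin K (values W T),
       evenProj K m n ∈ Submodule.span K (values W T),
       ∃ x ∈ Algebra.adjoin K (values W T), IsCoprime x.1.charpoly x.2.charpoly,
       StableSplit (values W T),
       Quotient W T] ∧
    (HomNum W T → (Cplus W ↔ Quotient W T)) :=
  ⟨main hW T, fun h => (numer hW T h).trans ((main hW T).out 0 4)⟩

end Pool.Agent.Results.MP_fd35e1_ag.FractionalProjector
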